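import Mathlib
import Pool.Agent.Y437.GM.Force
import Pool.Agent.Y437.GM.Zfc

/-!
# MP_e258b5_gt: a set of reals of any prescribed uncountable size with all `γ_p` in a strong form,
# none of whose uncountable subsets has even the `δ`-property

1. Over an arbitrary ground model, for all sets `W`, `K`, `J` with `W` uncountable and
   `|W × K| ℵ₀ < |J|`, a notion of forcing preserves all cardinals and adds a sequence
   `(x_β : β ∈ W)` of reals as in `StrongFamily`.
2. In ZFC: from such a sequence one obtains a set `X` of reals of size `|W|` such that for any
   `K`-indexed family of nonprincipal ultrafilters `p_i`, for every finite power `Z` of `X`, and for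
   every sequence of open `ω`-covers of `Z` one can select (distinct) members `U n`, one from each
   cover, with `{n | z ∈ U n} ∈ p_i` for all points `z` and all `i`; no uncountable subset of `X`
   has the property `δ` of Gerlits and Nagy, hence none has the property `γ`.

The forcing language is the one of `Pool.Agent.Helper669.Forcing`: a sentence is the set of the
conditions which force it (`fnot`, `fand`, `fall` are primitive). `StrongExistsN P W K J` is the
translation of `there is x : W → ℕ → Bool with StrongFamily W K J x`.
-/

set_option autoImplicit false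

namespace Pool.Agent.Results.MP_e258b5_gt.SimultaneousGamma

open Cardinal Pool.Agent.Helper669.Forcing Pool.Agent.W684.FM Pool.Agent.W635.GP
  Pool.Agent.Helper185.Del Pool.Agent.Y437.GM

/-- (1) For all sets `W`, `K`, `J` with `W` uncountable and `|W × K| ℵ₀ < |J|` there is a notion of
forcing all of whose conditions force that all cardinals (in particular `ω₁`) are preserved, and
that there is a sequence of reals, indexed by `W`, as in `StrongFamily`. (2) If there is such a
sequence, then there is an uncountable set `X` of reals of size `|W|` such that: for every family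
`(p_i : i ∈ K)` of nonprincipal ultrafilters, `X` and all its finite powers have the selection
property `Selects` for all the `p_i` at once; hence (if `K` is not empty) `X` has the
`γ_p`-property for every nonprincipal ultrafilter `p` on `ℕ` (even with injective enumerations);
and no uncountable subset of `X`, in particular not `X` itself, has the `δ`-property or the
`γ`-property. -/
theorem result :
    (∀ W K J : Type, ¬ Countable W → #(W × K) * ℵ₀ < #J →
      ∃ (P : Type) (_ : Preorder P), Nonempty P ∧ ∀ p : P,
        p ∈ CardinalsPreserved.{0, 0} P ∧ p ∈ OmegaOnePreserved P ∧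
          p ∈ StrongExistsN P W K J) ∧
    (∀ (W K J : Type) (x : W → ℕ → Bool), StrongFamily W K J x →
      ∃ X : Set ℝ, #X = #W ∧ ¬ X.Countable ∧
        (∀ p : K → Ultrafilter ℕ, (∀ i, Nonprincipal (p i)) →
          Selects p X ∧ ∀ k : ℕ, Selects p (Fin k → X)) ∧
        (Nonempty K → ∀ p : Ultrafilter ℕ, Nonprincipal p → GammaP p X ∧ GammaPInj p X) ∧
        ∀ Y ⊆ X, ¬ Y.Countable → ¬ DeltaProperty Y ∧ ¬ GammaProperty Y) := by
  refine ⟨fun W K J hW hJ => ⟨Pool.Agent.W635.GP.Cond W J, inferInstance, ?_, fun p =>
    ⟨Pool.Agent.W635.GP.pccc.cardinalsPreserved p,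
      Pool.Agent.W635.GP.pccc.omegaOnePreserved p, forced_exists' hW hJ p⟩⟩,
    fun W K J x h => ?_⟩
  · infer_instance
  · obtain ⟨X, h1, h2, h3, h4⟩ := exists_reals' h
    refine ⟨X, h1, h2, h3, fun ⟨i⟩ p hp => ?_, h4⟩
    have h5 : GammaPInj p X := (h3 (fun _ => p) fun _ => hp).1.gammaPInj i
    exact ⟨h5.gammaP, h5⟩

end Pool.Agent.Results.MP_e258b5_gt.SimultaneousGamma
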